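import Mathlib
import Pool.Agent.X198.GLinf

/-!
# MP_ff84c4_al: a countable group with finite double centralizers whose Markov topology is not the
centralizer topology

The group is the stable linear group `⋃ₙ GL_n(𝔽₂)`, acting on the space of finitely supported
vectors. The topology of pointwise convergence on the vectors is a Hausdorff group topology in which
centralizers of single elements need not be open.
-/

set_option autoImplicit false

namespace Pool.Agent.Results.MP_ff84c4_al.Counterexample

open Pool.Agent.X198.GLinf

theorem result : ∃ (G : Type) (_ : Group G), Countable G ∧ Subgroup.center G = ⊥ ∧
    FiniteDoubleCentralizers G ∧ markovTopology G ≠ centralizerTopology G :=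
  ⟨Gi, inferInstance, countable_Gi, center_trivial, finite_double, ne⟩

end Pool.Agent.Results.MP_ff84c4_al.Counterexample
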